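import Pool.Agent.H74.OLP.Targets2

/-!
# Locally planar cubic graphs: the theorem for cubic maps
-/

set_option autoImplicit false
set_option linter.unusedSectionVars false
open scoped Classical
open Finset Pool.Agent.H74.OLP

namespace Pool.Agent.H62.OLP

theorem pf_MNM (h1 : T_SFF) (h2 : T_CTH) (h3 : T_CFO) (h4 : T_DFI) (h5 : T_NBR) (h6 : T_LNK)
    (h7 : T_CUT) (h8 : T_CNG) (h9 : T_CNF) (h10 : T_END) (h11 : T_POT) (h12 : T_SHC)
    (h13 : T_CSD) (h14 : T_ECT) (h15 : T_NB0) (h16 : T_STP) (h17 : T_NUM) (h18 : T_DIR) :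
    T_MNM := by
  intro V E F _ _ _ M hok hpar h5e hF k w hrep hw hcard
  have h4k : 1 ≤ 4 ^ k := Nat.one_le_pow _ _ (by norm_num)
  have hw52 : 12 * k + 52 ≤ w := le_trans (by
    calc 12 * k + 52 = 1 * (12 * k + 52) := (one_mul _).symm
      _ ≤ 4 ^ k * (12 * k + 52) := Nat.mul_le_mul_right _ h4k) hw
  have hSF : M.SF := h1 V E F M hok hpar h5e w (by omega) hrep
  have hC3 : C3 M := h2 V E F M hok hpar h5e w (by omega) hrep
  have hQ4 : Q4 M.T := h3 V E F M hok hpar h5e w (by omega) hrep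
  have hSh : ∀ D, M.ZG D → Sh M.T w (M.lift D) := h7 V E F M hok hSF w hrep
  have hCG := h8 V E F M hok hpar h5e
  obtain ⟨hCF, hwalk⟩ := h9 V E F M hok hCG
  have hD1 : M.ZG M.D1 := (h18 V E F M hok).2.2.2
  have hSh1 := hSh _ hD1
  have hF' := hF
  obtain ⟨f0⟩ := hF
  have hVne : Nonempty V := ⟨M.vt f0 0⟩
  by_cases hnull : Null M.T (M.lift M.D1) Set.univ
  · obtain ⟨g, hg⟩ := h11 F M.T (M.lift M.D1) Set.univ (lift_sy M _) hnull
    refine h10 V E F M hok hSF 0 (fun _ => 0) (fun _ _ => f0) (fun _ _ _ => 0) (fun _ _ => 0)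
      ⟨fun j hj => absurd hj (Nat.not_lt_zero j), fun j hj => absurd hj (Nat.not_lt_zero j),
        fun j hj => absurd hj (Nat.not_lt_zero j), fun j hj => absurd hj (Nat.not_lt_zero j)⟩
      ⟨fun j hj => absurd hj (Nat.not_lt_zero j), fun j hj => absurd hj (Nat.not_lt_zero j),
        fun j hj => absurd hj (Nat.not_lt_zero j), fun j hj => absurd hj (Nat.not_lt_zero j)⟩
      ⟨g, fun e => ?_⟩
    have := hg _ (Set.mem_univ _) _ (Set.mem_univ _) (T_adj_of_edge M hok e)
    rw [lift_eq' M hSF] at this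
    simpa [om] using this
  · obtain ⟨n, c, hc, hwn, -, -⟩ := h12 F M.T (M.lift M.D1) Set.univ w (by omega) hSh1 hnull
    have hnE : n ≤ Fintype.card E := (h13 V E F M hok hSF n c hc).2.2.2
    have hEC := h14 V E F M hok
    have hV8 : 8 ≤ Fintype.card V := by omega
    have hd5 := h4 V E F M hok hpar h5e hV8
    have harcs : ∀ f x y, M.T.Adj f x → M.T.Adj f y → x ≠ y → ¬ M.T.Adj x y →
        ∃ p c q r, Arcs M.T f x y p c q r := by
      intro f x y hx hy hxy hn
      obtain ⟨nb, q1, q2, q3⟩ := h5 V E F M hok hSF hC3 hd5 f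
      exact h6 F M.T f (M.d f) nb (hd5 f) q1 q2 q3 x y hx hy hxy hn
    have hstep := h16 V E F M hok hSF hQ4 harcs hwalk w hSh
    have ar : ∀ i, i ≤ k → 2 * (4 ^ (k - i) * (6 * k + 26) - 1) + 1 < w ∧
        6 * k + 25 ≤ 4 ^ (k - i) * (6 * k + 26) - 1 := by
      intro i hi
      have e1 : 4 ^ (k - i) ≤ 4 ^ k := Nat.pow_le_pow_right (by norm_num) (by omega)
      have e2 : 1 ≤ 4 ^ (k - i) := Nat.one_le_pow _ _ (by norm_num)
      have e3 : 4 ^ (k - i) * (6 * k + 26) ≤ 4 ^ k * (6 * k + 26) := Nat.mul_le_mul_right _ e1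
      have e4 : 1 * (6 * k + 26) ≤ 4 ^ (k - i) * (6 * k + 26) := Nat.mul_le_mul_right _ e2
      have e5 : 4 ^ k * (12 * k + 52) = 2 * (4 ^ k * (6 * k + 26)) := by ring
      omega
    have key : ∀ i, i ≤ k → M.Lab ∨
        ∃ S N c, St M i (4 ^ (k - i) * (6 * k + 26) - 1) S N c := by
      intro i
      induction i with
      | zero =>
        intro h0
        refine Or.inr ⟨{f0}, fun _ => 0, fun _ _ => f0,
          ⟨⟨fun j hj => absurd hj (Nat.not_lt_zero j), fun j hj => absurd hj (Nat.not_lt_zero j),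
            fun j hj => absurd hj (Nat.not_lt_zero j), fun j hj => absurd hj (Nat.not_lt_zero j)⟩,
            ⟨f0, rfl⟩, ?_, fun j hj => absurd hj (Nat.not_lt_zero j), ?_⟩⟩
        · intro x hx y hy
          rw [Set.mem_singleton_iff] at hx hy
          subst hx
          subst hy
          refine ⟨.nil, fun z hz => ?_⟩
          simpa using hz
        · intro D hD _
          exact h15 F M.T (M.lift D) w _ f0 (hSh D hD) (ar 0 h0).1
      | succ i ih =>
        intro hi
        rcases ih (by omega) with hL | ⟨S, N, c, hS⟩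
        · exact Or.inl hL
        · have hi1 := ar i (by omega)
          rcases hstep i _ S N c hS (by omega) (by omega) with hL | ⟨S', N', c', hS'⟩
          · exact Or.inl hL
          · refine Or.inr ⟨S', N', c', hS' _ ?_⟩
            have e1 : k - i = (k - (i + 1)) + 1 := by omega
            have e2 : 4 ^ (k - i) * (6 * k + 26) = 4 * (4 ^ (k - (i + 1)) * (6 * k + 26)) := by
              rw [e1, pow_succ]; ring
            have e3 := ar (i + 1) hi
            omega
    rcases key k le_rfl with hL | ⟨S, N, c, hS⟩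
    · exact hL
    · have hk := ar k le_rfl
      rcases hstep k _ S N c hS (by omega) (by omega) with hL | ⟨S', N', c', hS'⟩
      · exact hL
      · exfalso
        have hst := hS' 0 (by omega)
        have := h17 V E F M hok hSF hVne hF' hCG hCF k hcard (k + 1) N' c' hst.toFam
        omega

end Pool.Agent.H62.OLP
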